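import Pool.Agent.X171.EL.Stm

/-!
# EL_ACT: the isometries of `L_1(Ω)` given by the permutations of the coordinates
-/

open MeasureTheory Set
open scoped ENNReal

namespace Pool.Agent.X327.EL

open Pool.Agent.X171.EL

theorem measurable_pm (π : Equiv.Perm ℕ) : Measurable (pm π) :=
  measurable_pi_lambda _ (fun i => measurable_pi_apply (π i))

/-- `pm π` as a measurable equivalence. -/
def pme (π : Equiv.Perm ℕ) : Om ≃ᵐ Om where
  toFun := pm π
  invFun := pm π.symm
  left_inv ω := by funext i; simp [pm]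
  right_inv ω := by funext i; simp [pm]
  measurable_toFun := measurable_pm π
  measurable_invFun := measurable_pm π.symm

theorem mp_symm {π : Equiv.Perm ℕ} (h : MeasurePreserving (pm π) Pr Pr) :
    MeasurePreserving (pm π.symm) Pr Pr := by
  have h' : MeasurePreserving (pme π) Pr Pr := h
  exact h'.symm (pme π)

theorem surj {π : Equiv.Perm ℕ} (h : MeasurePreserving (pm π) Pr Pr) :
    Function.Surjective (Lp.compMeasurePreservingₗᵢ (E := ℝ) (p := 1) ℝ (pm π) h) := by
  intro y
  refine ⟨Lp.compMeasurePreserving (pm π.symm) (mp_symm h) y, ?_⟩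
  change Lp.compMeasurePreserving (pm π) h (Lp.compMeasurePreserving (pm π.symm) (mp_symm h) y) = y
  rw [← Lp.compMeasurePreserving_comp_apply]
  have e : pm π.symm ∘ pm π = id := by funext ω i; simp [pm]
  apply Lp.ext
  refine (Lp.coeFn_compMeasurePreserving _ _).trans ?_
  rw [e]; rfl

open Classical in
/-- The isometry of a permutation. -/
noncomputable def T (π : Equiv.Perm ℕ) : X1 ≃ₗᵢ[ℝ] X1 :=
  if h : MeasurePreserving (pm π) Pr Pr then
    LinearIsometryEquiv.ofSurjective (Lp.compMeasurePreservingₗᵢ (E := ℝ) (p := 1) ℝ (pm π) h)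
      (surj h)
  else LinearIsometryEquiv.refl ℝ X1

theorem T_apply {π : Equiv.Perm ℕ} (h : MeasurePreserving (pm π) Pr Pr) (x : X1) :
    T π x = Lp.compMeasurePreserving (pm π) h x := by
  unfold T
  rw [dif_pos h]
  rfl

theorem T_neg {π : Equiv.Perm ℕ} (h : ¬ MeasurePreserving (pm π) Pr Pr) (x : X1) :
    T π x = x := by
  unfold T
  rw [dif_neg h]
  rfl

theorem t_ACT : S_ACT := by
  refine ⟨T, fun π h x => T_apply h x, fun π => ?_, fun π x => ?_⟩
  · by_cases h : MeasurePreserving (pm π) Pr Pr
    · rw [T_apply h]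
      apply Lp.ext
      refine (Lp.coeFn_compMeasurePreserving _ _).trans ?_
      have h1 : (⇑(Lp.const 1 Pr (1 : ℝ))) =ᵐ[Pr] Function.const Om (1 : ℝ) := Lp.coeFn_const 1 Pr (1 : ℝ)
      exact (h.quasiMeasurePreserving.ae_eq_comp h1).trans h1.symm
    · exact T_neg h _
  · by_cases h : MeasurePreserving (pm π) Pr Pr
    · rw [T_apply h]
      rw [integral_congr_ae (Lp.coeFn_compMeasurePreserving x h)]
      have h' : MeasurePreserving (pme π) Pr Pr := h
      exact h'.integral_comp' (fun ω => x ω)
    · rw [T_neg h]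

end Pool.Agent.X327.EL
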